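import Mathlib

open Real
open scoped RealInnerProductSpace

namespace Pool.Agent.Results.MP_41a254_co.HiddenBall

/-- Euclidean 3-space. -/
abbrev E := EuclideanSpace ℝ (Fin 3)

/-- A convex body: compact, convex, with nonempty interior. -/
def IsConvexBody (K : Set E) : Prop :=
  IsCompact K ∧ Convex ℝ K ∧ (interior K).Nonempty

/-- For any three distinct members `A`, `B`, `C` some plane (strictly) separates `A ∪ B`
from `C`. -/
def Separable (F : Finset (Set E)) : Prop :=
  ∀ A ∈ F, ∀ B ∈ F, ∀ C ∈ F, A ≠ B → A ≠ C → B ≠ C →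
    ∃ (v : E) (t : ℝ), v ≠ 0 ∧ (∀ x ∈ A ∪ B, ⟪v, x⟫ < t) ∧ (∀ x ∈ C, t < ⟪v, x⟫)

/-- The plane `⟪v, x⟫ = t` (with `v ≠ 0`) supports `K`: it meets `K`, and `K` lies in one of
its two closed sides. -/
def Supports (v : E) (t : ℝ) (K : Set E) : Prop :=
  (∃ x ∈ K, ⟪v, x⟫ = t) ∧ ((∀ x ∈ K, ⟪v, x⟫ ≤ t) ∨ (∀ x ∈ K, t ≤ ⟪v, x⟫))

/-- No four distinct members have a common supporting plane. -/
def Nondegenerate (F : Finset (Set E)) : Prop :=
  ∀ G ⊆ F, G.card = 4 → ¬ ∃ (v : E) (t : ℝ), v ≠ 0 ∧ ∀ K ∈ G, Supports v t K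

/-- The members of `F` are in convex position: for every member `C`, the boundary of the convex
hull of the union contains a nonempty relatively open piece of the boundary of `C`. -/
def ConvexPosition (F : Finset (Set E)) : Prop :=
  ∀ C ∈ F, ∃ U : Set E, IsOpen U ∧ (U ∩ frontier C).Nonempty ∧
    U ∩ frontier C ⊆ frontier (convexHull ℝ (⋃ K ∈ F, K))

/-! ### coordinates -/

lemma inner3 (v w : E) : ⟪v, w⟫ = v 0 * w 0 + v 1 * w 1 + v 2 * w 2 := by
  rw [PiLp.inner_apply, Fin.sum_univ_three]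
  simp
  ring

lemma nsq (v : E) : ‖v‖ ^ 2 = v 0 ^ 2 + v 1 ^ 2 + v 2 ^ 2 := by
  rw [← real_inner_self_eq_norm_sq, inner3]
  ring

/-! ### balls -/

lemma le_support {v c x : E} {r : ℝ} (hx : x ∈ Metric.closedBall c r) :
    ⟪v, x⟫ ≤ ⟪v, c⟫ + r * ‖v‖ := by
  rw [mem_closedBall_iff_norm] at hx
  have h1 : ⟪v, x⟫ = ⟪v, c⟫ + ⟪v, x - c⟫ := by rw [inner_sub_right]; ring
  have h2 : ⟪v, x - c⟫ ≤ ‖v‖ * ‖x - c‖ := real_inner_le_norm _ _
  have h3 : ‖v‖ * ‖x - c‖ ≤ ‖v‖ * r := mul_le_mul_of_nonneg_left hx (norm_nonneg _)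
  linarith

lemma ge_support {v c x : E} {r : ℝ} (hx : x ∈ Metric.closedBall c r) :
    ⟪v, c⟫ - r * ‖v‖ ≤ ⟪v, x⟫ := by
  have := le_support (v := -v) hx
  rw [inner_neg_left, inner_neg_left, norm_neg] at this
  linarith

lemma top_point {v c : E} {r : ℝ} (hr : 0 ≤ r) (hv : v ≠ 0) :
    c + (r / ‖v‖) • v ∈ Metric.closedBall c r ∧ ⟪v, c + (r / ‖v‖) • v⟫ = ⟪v, c⟫ + r * ‖v‖ := by
  have hn : 0 < ‖v‖ := norm_pos_iff.mpr hv
  constructor
  · rw [mem_closedBall_iff_norm]
    have : c + (r / ‖v‖) • v - c = (r / ‖v‖) • v := by abel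
    rw [this, norm_smul, Real.norm_eq_abs, abs_of_nonneg (by positivity)]
    rw [div_mul_cancel₀ _ hn.ne']
  · rw [inner_add_right, inner_smul_right, real_inner_self_eq_norm_sq]
    field_simp

lemma supports_ball {v c : E} {t r : ℝ} (hr : 0 ≤ r) (hv : v ≠ 0)
    (h : Supports v t (Metric.closedBall c r)) : |⟪v, c⟫ - t| = r * ‖v‖ := by
  have hn : 0 < ‖v‖ := norm_pos_iff.mpr hv
  obtain ⟨⟨x, hx, hxt⟩, h | h⟩ := h
  · obtain ⟨h1, h2⟩ := top_point (c := c) hr hv
    have h3 := h _ h1
    have h4 := le_support (v := v) hx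
    have : t = ⟪v, c⟫ + r * ‖v‖ := by linarith
    rw [this, show ⟪v, c⟫ - (⟪v, c⟫ + r * ‖v‖) = -(r * ‖v‖) by ring, abs_neg,
      abs_of_nonneg (by positivity)]
  · obtain ⟨h1, h2⟩ := top_point (c := c) (v := -v) hr (neg_ne_zero.mpr hv)
    have h3 := h _ h1
    have h4 := ge_support (v := v) hx
    rw [inner_neg_left, inner_neg_left, norm_neg] at h2
    rw [norm_neg] at h3
    have : t = ⟪v, c⟫ - r * ‖v‖ := by linarith
    rw [this, show ⟪v, c⟫ - (⟪v, c⟫ - r * ‖v‖) = (r * ‖v‖) by ring,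
      abs_of_nonneg (by positivity)]

/-- a ball that sticks out in some direction contributes a piece of its boundary -/
lemma exposed {ι : Type} (s : Finset ι) (c : ι → E) (r : ι → ℝ) (hr : ∀ i, 0 < r i) {i : ι}
    (h : ∃ e : E, e ≠ 0 ∧ ∀ j ∈ s, j ≠ i →
      ⟪e, c j⟫ + r j * ‖e‖ < ⟪e, c i⟫ + r i * ‖e‖) (H : Set E)
    (hH : ∀ x ∈ H, ∃ j ∈ s, x ∈ Metric.closedBall (c j) (r j))
    (hH' : Metric.closedBall (c i) (r i) ⊆ H) :
    ∃ U : Set E, IsOpen U ∧ (U ∩ frontier (Metric.closedBall (c i) (r i))).Nonempty ∧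
      U ∩ frontier (Metric.closedBall (c i) (r i)) ⊆ frontier (convexHull ℝ H) := by
  classical
  set V : Set E := ⋂ j ∈ s, {e : E | j = i ∨ ⟪e, c j⟫ + r j * ‖e‖ < ⟪e, c i⟫ + r i * ‖e‖} with hV
  have hVo : IsOpen V := by
    apply isOpen_biInter_finset
    intro j _
    by_cases hj : j = i
    · simp [hj]
    · simp only [hj, false_or]
      exact isOpen_lt (by fun_prop) (by fun_prop)
  refine ⟨(fun x => x - c i) ⁻¹' V, hVo.preimage (by fun_prop), ?_, ?_⟩
  · obtain ⟨e, he, hej⟩ := h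
    have hn : 0 < ‖e‖ := norm_pos_iff.mpr he
    refine ⟨c i + (r i / ‖e‖) • e, ?_, ?_⟩
    · show c i + (r i / ‖e‖) • e - c i ∈ V
      rw [add_sub_cancel_left, hV]
      simp only [Set.mem_iInter, Set.mem_ofPred_eq]
      intro j hj
      by_cases hji : j = i
      · exact Or.inl hji
      · right
        have h1 := hej j hj hji
        have hpos : 0 < r i / ‖e‖ := div_pos (hr i) hn
        rw [inner_smul_left, inner_smul_left, norm_smul, Real.norm_eq_abs, abs_of_pos hpos]
        simp only [conj_trivial]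
        have := mul_lt_mul_of_pos_left h1 hpos
        linarith
    · rw [frontier_closedBall _ (hr i).ne', mem_sphere_iff_norm, add_sub_cancel_left, norm_smul,
        Real.norm_eq_abs, abs_of_pos (div_pos (hr i) hn), div_mul_cancel₀ _ hn.ne']
  · rintro x ⟨hx, hx'⟩
    rw [frontier_closedBall _ (hr i).ne', mem_sphere_iff_norm] at hx'
    set e := x - c i with he
    have hxV : e ∈ V := hx
    have hxin : x ∈ Metric.closedBall (c i) (r i) := by
      rw [mem_closedBall_iff_norm]; exact hx'.le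
    have he0 : e ≠ 0 := by
      intro h0
      rw [h0, norm_zero] at hx'
      exact (hr i).ne hx'
    have hval : ⟪e, x⟫ = ⟪e, c i⟫ + r i * ‖e‖ := by
      have : x = c i + e := by rw [he]; abel
      rw [this, inner_add_right, real_inner_self_eq_norm_sq, hx']
      ring
    have hmax : ∀ y ∈ convexHull ℝ H, ⟪e, y⟫ ≤ ⟪e, x⟫ := by
      have hconv : Convex ℝ {y : E | ⟪e, y⟫ ≤ ⟪e, x⟫} :=
        convex_halfSpace_le (IsLinearMap.mk (fun a b => inner_add_right e a b)
          (fun a b => inner_smul_right e b a)) _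
      have hsub : H ⊆ {y : E | ⟪e, y⟫ ≤ ⟪e, x⟫} := by
        intro y hy
        obtain ⟨j, hj, hyj⟩ := hH y hy
        have h1 := le_support (v := e) hyj
        show ⟪e, y⟫ ≤ ⟪e, x⟫
        rw [hval]
        have hxV' := hxV
        rw [hV] at hxV'
        simp only [Set.mem_iInter, Set.mem_ofPred_eq] at hxV'
        rcases hxV' j hj with h2 | h2
        · rw [h2] at h1
          exact h1
        · linarith
      exact fun y hy => convexHull_min hsub hconv hy
    have hxH : x ∈ convexHull ℝ H := subset_convexHull ℝ H (hH' hxin)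
    rw [frontier]
    refine ⟨subset_closure hxH, fun hint => ?_⟩
    have hc : Filter.Tendsto (fun δ : ℝ => x + δ • e) (nhdsWithin 0 (Set.Ioi 0)) (nhds x) := by
      have : Filter.Tendsto (fun δ : ℝ => x + δ • e) (nhds 0) (nhds (x + (0 : ℝ) • e)) :=
        (Continuous.tendsto (by fun_prop) 0)
      rw [zero_smul, add_zero] at this
      exact this.mono_left nhdsWithin_le_nhds
    have hev := hc.eventually (isOpen_interior.mem_nhds hint)
    have hpos : ∀ᶠ δ : ℝ in nhdsWithin 0 (Set.Ioi 0), 0 < δ := self_mem_nhdsWithin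
    obtain ⟨δ, hδ, hδ0⟩ := (hev.and hpos).exists
    have h1 := hmax _ (interior_subset hδ)
    rw [inner_add_right, inner_smul_right, real_inner_self_eq_norm_sq] at h1
    have h2 : 0 < ‖e‖ := norm_pos_iff.mpr he0
    have : 0 < δ * ‖e‖ ^ 2 := by positivity
    linarith

/-! ### generic radii -/

/-- cross product -/
def cr (p q : E) : E :=
  !₂[p 1 * q 2 - p 2 * q 1, p 2 * q 0 - p 0 * q 2, p 0 * q 1 - p 1 * q 0]

lemma cr0 (p q : E) : cr p q 0 = p 1 * q 2 - p 2 * q 1 := rfl
lemma cr1 (p q : E) : cr p q 1 = p 2 * q 0 - p 0 * q 2 := rfl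
lemma cr2 (p q : E) : cr p q 2 = p 0 * q 1 - p 1 * q 0 := rfl

lemma orth {p q x : E} (hp : ⟪x, p⟫ = 0) (hq : ⟪x, q⟫ = 0) :
    (‖cr p q‖ ^ 2) • x = ⟪cr p q, x⟫ • cr p q := by
  rw [inner3] at hp hq
  ext i
  fin_cases i
  · simp only [PiLp.smul_apply, smul_eq_mul, nsq, inner3, cr0, cr1, cr2, Fin.zero_eta]
    linear_combination ((p 2 * q 0 - p 0 * q 2) * p 2 - (p 0 * q 1 - p 1 * q 0) * p 1) * hq -
      ((p 2 * q 0 - p 0 * q 2) * q 2 - (p 0 * q 1 - p 1 * q 0) * q 1) * hp
  · simp only [PiLp.smul_apply, smul_eq_mul, nsq, inner3, cr0, cr1, cr2, Fin.mk_one]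
    linear_combination ((p 0 * q 1 - p 1 * q 0) * p 0 - (p 1 * q 2 - p 2 * q 1) * p 2) * hq -
      ((p 0 * q 1 - p 1 * q 0) * q 0 - (p 1 * q 2 - p 2 * q 1) * q 2) * hp
  · simp only [PiLp.smul_apply, smul_eq_mul, nsq, inner3, cr0, cr1, cr2, Fin.reduceFinMk]
    linear_combination ((p 1 * q 2 - p 2 * q 1) * p 1 - (p 2 * q 0 - p 0 * q 2) * p 0) * hq -
      ((p 1 * q 2 - p 2 * q 1) * q 1 - (p 2 * q 0 - p 0 * q 2) * q 0) * hp

lemma finite_dirs {p q : E} (h : cr p q ≠ 0) (α β : ℝ) :
    {v : E | ‖v‖ = 1 ∧ ⟪v, p⟫ = α ∧ ⟪v, q⟫ = β}.Finite := by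
  rcases Set.eq_empty_or_nonempty {v : E | ‖v‖ = 1 ∧ ⟪v, p⟫ = α ∧ ⟪v, q⟫ = β} with h0 | ⟨v0, h1, h2, h3⟩
  · rw [h0]; exact Set.finite_empty
  · set w := cr p q with hw
    have hn : 0 < ‖w‖ := norm_pos_iff.mpr h
    have hsub : {v : E | ‖v‖ = 1 ∧ ⟪v, p⟫ = α ∧ ⟪v, q⟫ = β} ⊆
        {v0, v0 + (-(2 * ⟪v0, w⟫) / ‖w‖ ^ 2) • w} := by
      rintro v ⟨g1, g2, g3⟩
      have e1 : ⟪v - v0, p⟫ = 0 := by rw [inner_sub_left]; linarith
      have e2 : ⟪v - v0, q⟫ = 0 := by rw [inner_sub_left]; linarith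
      have e3 := orth e1 e2
      rw [← hw] at e3
      set l : ℝ := ⟪w, v - v0⟫ / ‖w‖ ^ 2 with hl
      have e4 : v = v0 + l • w := by
        have : v - v0 = l • w := by
          rw [hl, div_eq_inv_mul, mul_smul, ← e3, smul_smul, inv_mul_cancel₀ (by positivity),
            one_smul]
        rw [← this]; abel
      have e5 : ‖v‖ ^ 2 = ‖v0‖ ^ 2 + 2 * l * ⟪v0, w⟫ + l ^ 2 * ‖w‖ ^ 2 := by
        rw [e4, norm_add_sq_real, inner_smul_right, norm_smul, mul_pow, Real.norm_eq_abs, sq_abs]
        ring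
      rw [g1, h1] at e5
      have e6 : l * (2 * ⟪v0, w⟫ + l * ‖w‖ ^ 2) = 0 := by linarith
      rcases mul_eq_zero.mp e6 with e7 | e7
      · left
        rw [e4, e7, zero_smul, add_zero]
      · right
        have e8 : l = -(2 * ⟪v0, w⟫) / ‖w‖ ^ 2 := by
          field_simp
          linarith
        rw [Set.mem_singleton_iff, ← e8]
        exact e4
    exact (Set.toFinite _).subset hsub

lemma finite_planes {a b d : E} (h : cr (b - a) (d - a) ≠ 0) (x y z : ℝ) :
    {P : E × ℝ | ‖P.1‖ = 1 ∧ |⟪P.1, a⟫ - P.2| = x ∧ |⟪P.1, b⟫ - P.2| = y ∧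
      |⟪P.1, d⟫ - P.2| = z}.Finite := by
  have hfin : ∀ x y z : ℝ, {P : E × ℝ | ‖P.1‖ = 1 ∧ ⟪P.1, a⟫ - P.2 = x ∧ ⟪P.1, b⟫ - P.2 = y ∧
      ⟪P.1, d⟫ - P.2 = z}.Finite := by
    intro x y z
    refine ((finite_dirs h (y - x) (z - x)).image (fun v => (v, ⟪v, a⟫ - x))).subset ?_
    rintro ⟨v, t⟩ ⟨h1, h2, h3, h4⟩
    simp only at h1 h2 h3 h4
    refine ⟨v, ⟨h1, ?_, ?_⟩, ?_⟩
    · rw [inner_sub_right]; linarith
    · rw [inner_sub_right]; linarith
    · simp only [Prod.mk.injEq, true_and]; linarith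
  have hsub : {P : E × ℝ | ‖P.1‖ = 1 ∧ |⟪P.1, a⟫ - P.2| = x ∧ |⟪P.1, b⟫ - P.2| = y ∧
      |⟪P.1, d⟫ - P.2| = z} ⊆ ⋃ x' ∈ ({x, -x} : Set ℝ), ⋃ y' ∈ ({y, -y} : Set ℝ),
      ⋃ z' ∈ ({z, -z} : Set ℝ), {P : E × ℝ | ‖P.1‖ = 1 ∧ ⟪P.1, a⟫ - P.2 = x' ∧
        ⟪P.1, b⟫ - P.2 = y' ∧ ⟪P.1, d⟫ - P.2 = z'} := by
    rintro P ⟨h1, h2, h3, h4⟩
    have key : ∀ u w : ℝ, |u| = w → u ∈ ({w, -w} : Set ℝ) := by
      intro u w huw
      rcases abs_choice u with hu | hu
      · left; linarith
      · right; rw [Set.mem_singleton_iff]; linarith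
    simp only [Set.mem_iUnion]
    exact ⟨_, key _ _ h2, _, key _ _ h3, _, key _ _ h4, h1, rfl, rfl, rfl⟩
  refine Set.Finite.subset ?_ hsub
  refine Set.Finite.biUnion (Set.toFinite _) fun x' _ => ?_
  refine Set.Finite.biUnion (Set.toFinite _) fun y' _ => ?_
  exact Set.Finite.biUnion (Set.toFinite _) fun z' _ => hfin x' y' z'

lemma exists_radii {ι : Type} [Fintype ι] (c : ι → E)
    (hc : ∀ a b d, a ≠ b → a ≠ d → b ≠ d → cr (c b - c a) (c d - c a) ≠ 0) (i0 : ι) {R : ℝ}
    (hR : 0 < R) : ∃ r : ι → ℝ, r i0 = 1 ∧ (∀ i, i ≠ i0 → 0 < r i ∧ r i < R) ∧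
      ∀ (s : Finset ι) (v : E) (t : ℝ), ‖v‖ = 1 → (∀ i ∈ s, |⟪v, c i⟫ - t| = r i) →
        s.card ≤ 3 := by
  classical
  have key : ∀ S : Finset ι, ∃ r : ι → ℝ, r i0 = 1 ∧ (∀ i, i ≠ i0 → 0 < r i ∧ r i < R) ∧
      ∀ (s : Finset ι), s ⊆ insert i0 S → ∀ (v : E) (t : ℝ), ‖v‖ = 1 →
        (∀ i ∈ s, |⟪v, c i⟫ - t| = r i) → s.card ≤ 3 := by
    intro S
    induction S using Finset.induction_on with
    | empty =>
      refine ⟨fun i => if i = i0 then 1 else R / 2, by simp, fun i hi => ?_, ?_⟩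
      · simp only [hi, if_false]
        constructor <;> linarith
      · intro s hs v t _ _
        have := Finset.card_le_card hs
        simp at this
        omega
    | insert j S hj ih =>
      obtain ⟨r, h0, h1, h2⟩ := ih
      by_cases hji : j = i0
      · refine ⟨r, h0, h1, ?_⟩
        intro s hs
        apply h2
        rw [hji, Finset.insert_idem] at hs
        exact hs
      · -- bad values
        set bad : Set ℝ := ⋃ T ∈ ((insert i0 S).powersetCard 3 : Finset (Finset ι)),
          (fun P : E × ℝ => |⟪P.1, c j⟫ - P.2|) ''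
            {P : E × ℝ | ‖P.1‖ = 1 ∧ ∀ i ∈ T, |⟪P.1, c i⟫ - P.2| = r i} with hbad
        have hfin : bad.Finite := by
          refine Set.Finite.biUnion (Finset.finite_toSet _) fun T hT => ?_
          apply Set.Finite.image
          have hT3 := (Finset.mem_powersetCard.mp hT).2
          obtain ⟨a, b, d, hab, had, hbd, rfl⟩ := Finset.card_eq_three.mp hT3
          refine (finite_planes (hc a b d hab had hbd) (r a) (r b) (r d)).subset ?_
          rintro P ⟨g1, g2⟩
          exact ⟨g1, g2 a (by simp), g2 b (by simp), g2 d (by simp)⟩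
        obtain ⟨ρ, hρ1, hρ2⟩ := (Set.Ioo_infinite hR).exists_notMem_finite hfin
        refine ⟨Function.update r j ρ, ?_, ?_, ?_⟩
        · rw [Function.update_of_ne (Ne.symm hji)]; exact h0
        · intro i hi
          by_cases hij : i = j
          · rw [hij, Function.update_self]
            exact hρ1
          · rw [Function.update_of_ne hij]
            exact h1 i hi
        · intro s hs v t hv hst
          by_cases hjs : j ∈ s
          · by_contra hcon
            push Not at hcon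
            have hcard : 3 ≤ (s.erase j).card := by
              rw [Finset.card_erase_of_mem hjs]; omega
            obtain ⟨T, hT, hT3⟩ := Finset.exists_subset_card_eq hcard
            apply hρ2
            rw [hbad]
            simp only [Set.mem_iUnion]
            refine ⟨T, ?_, (v, t), ⟨hv, ?_⟩, ?_⟩
            · rw [Finset.mem_powersetCard]
              refine ⟨fun i hi => ?_, hT3⟩
              have h5 := hT hi
              rw [Finset.mem_erase] at h5
              have h6 := hs h5.2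
              simp only [Finset.mem_insert] at h6 ⊢
              rcases h6 with h6 | h6 | h6
              · exact Or.inl h6
              · exact absurd h6 h5.1
              · exact Or.inr h6
            · intro i hi
              have h5 := hT hi
              rw [Finset.mem_erase] at h5
              have h6 := hst i h5.2
              rw [Function.update_of_ne h5.1] at h6
              exact h6
            · have h6 := hst j hjs
              rw [Function.update_self] at h6
              exact h6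
          · refine h2 s (fun i hi => ?_) v t hv (fun i hi => ?_)
            · have h6 := hs hi
              simp only [Finset.mem_insert] at h6 ⊢
              rcases h6 with h6 | h6 | h6
              · exact Or.inl h6
              · exact absurd (h6 ▸ hi) hjs
              · exact Or.inr h6
            · have h6 := hst i hi
              rw [Function.update_of_ne (by rintro rfl; exact hjs hi)] at h6
              exact h6
  obtain ⟨r, h0, h1, h2⟩ := key Finset.univ
  exact ⟨r, h0, h1, fun s => h2 s (fun i _ => by simp)⟩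

/-- three points each of which is exposed by a direction are not collinear -/
lemma not_collinear {a b d : E} (h1 : ∃ e : E, ⟪e, b⟫ < ⟪e, a⟫ ∧ ⟪e, d⟫ < ⟪e, a⟫)
    (h2 : ∃ e : E, ⟪e, a⟫ < ⟪e, b⟫ ∧ ⟪e, d⟫ < ⟪e, b⟫)
    (h3 : ∃ e : E, ⟪e, a⟫ < ⟪e, d⟫ ∧ ⟪e, b⟫ < ⟪e, d⟫) : cr (b - a) (d - a) ≠ 0 := by
  intro h0
  set p := b - a with hp
  set q := d - a with hq
  have hb : b = a + p := by rw [hp]; abel
  have hd : d = a + q := by rw [hq]; abel
  rw [hb, hd] at h1 h2 h3
  simp only [inner_add_right] at h1 h2 h3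
  obtain ⟨e, e1, e2⟩ := h1
  obtain ⟨f, f1, f2⟩ := h2
  obtain ⟨g, g1, g2⟩ := h3
  -- `p` is nonzero and `q` is a multiple of `p`
  have hp0 : 0 < ‖p‖ ^ 2 := by
    have : p ≠ 0 := by
      intro h; rw [h, inner_zero_right] at e1; linarith
    have := norm_pos_iff.mpr this
    positivity
  have c0 : p 1 * q 2 - p 2 * q 1 = 0 := by rw [← cr0, h0]; rfl
  have c1 : p 2 * q 0 - p 0 * q 2 = 0 := by rw [← cr1, h0]; rfl
  have c2 : p 0 * q 1 - p 1 * q 0 = 0 := by rw [← cr2, h0]; rfl
  have hpar : ∀ v : E, ‖p‖ ^ 2 * ⟪v, q⟫ = ⟪p, q⟫ * ⟪v, p⟫ := by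
    intro v
    rw [nsq, inner3, inner3, inner3]
    linear_combination (v 1 * p 2 - v 2 * p 1) * (-c0) + (v 2 * p 0 - v 0 * p 2) * (-c1) +
      (v 0 * p 1 - v 1 * p 0) * (-c2)
  have k1 := hpar e
  have k2 := hpar f
  have k3 := hpar g
  set L := ⟪p, q⟫
  set N := ‖p‖ ^ 2
  -- e : ⟪e,p⟫ < 0, ⟪e,q⟫ < 0
  have m1 : ⟪e, p⟫ < 0 := by linarith
  have m2 : ⟪e, q⟫ < 0 := by linarith
  have m3 : 0 < ⟪f, p⟫ := by linarith
  have m4 : ⟪f, q⟫ < ⟪f, p⟫ := by linarith
  have m5 : 0 < ⟪g, q⟫ := by linarith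
  have m6 : ⟪g, p⟫ < ⟪g, q⟫ := by linarith
  have l1 : 0 < L := by
    by_contra hcon
    push Not at hcon
    nlinarith [mul_pos_of_neg_of_neg m1 m2]
  have l2 : L < N := by
    have : L * ⟪f, p⟫ < N * ⟪f, p⟫ := by rw [← k2]; exact mul_lt_mul_of_pos_left m4 hp0
    exact lt_of_mul_lt_mul_right this m3.le
  have m7 : 0 < ⟪g, p⟫ := by
    have : 0 < L * ⟪g, p⟫ := by rw [← k3]; positivity
    exact (mul_pos_iff_of_pos_left l1).mp this
  have : N * ⟪g, p⟫ < L * ⟪g, p⟫ := by rw [← k3]; exact mul_lt_mul_of_pos_left m6 hp0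
  have := lt_of_mul_lt_mul_right this m7.le
  linarith

/-! ### the regular polygon -/

lemma cos_far {M : ℕ} (hM : 5 ≤ M) {x : ℝ} (h1 : 2 * π / M ≤ x) (h2 : x ≤ 2 * π - 2 * π / M) :
    cos x ≤ cos (2 * π / M) := by
  have hM' : (5 : ℝ) ≤ M := by exact_mod_cast hM
  have hpi := Real.pi_pos
  have hp : 0 < 2 * π / M := by positivity
  rcases le_total x π with h | h
  · exact Real.cos_le_cos_of_nonneg_of_le_pi hp.le h h1
  · rw [← Real.cos_two_pi_sub x]
    exact Real.cos_le_cos_of_nonneg_of_le_pi hp.le (by linarith) (by linarith)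

lemma cos_diff {M : ℕ} (hM : 5 ≤ M) (i j : Fin M) (hij : i ≠ j) :
    cos (2 * π * (i : ℕ) / M - 2 * π * (j : ℕ) / M) ≤ cos (2 * π / M) := by
  have hM' : (5 : ℝ) ≤ M := by exact_mod_cast hM
  have hpi := Real.pi_pos
  have hne : (i : ℕ) ≠ (j : ℕ) := fun h => hij (Fin.ext h)
  have main : ∀ a b : ℕ, b < a → a < M → cos (2 * π * a / M - 2 * π * b / M) ≤
      cos (2 * π / M) := by
    intro a b hab haM
    have h1 : (b : ℝ) + 1 ≤ a := by exact_mod_cast hab
    have h2 : (a : ℝ) + 1 ≤ M := by exact_mod_cast haM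
    have h3 : (0 : ℝ) ≤ b := by positivity
    apply cos_far hM
    · rw [← sub_div, div_le_div_iff_of_pos_right (by linarith)]
      nlinarith
    · rw [← sub_div, le_sub_iff_add_le, ← add_div, div_le_iff₀ (by linarith)]
      nlinarith
  rcases lt_or_gt_of_ne hne with h | h
  · rw [← Real.cos_neg, neg_sub]
    exact main _ _ h j.2
  · exact main _ _ h i.2

lemma cos_near {M : ℕ} (hM : 5 ≤ M) (φ : ℝ) : ∃ j : Fin M,
    cos (π / M) ≤ cos (φ - 2 * π * (j : ℕ) / M) := by
  have hM' : (5 : ℝ) ≤ M := by exact_mod_cast hM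
  have hM0 : (M : ℝ) ≠ 0 := by positivity
  have hpi := Real.pi_pos
  set n : ℤ := round (φ * M / (2 * π)) with hn
  have h1 : |φ * M / (2 * π) - n| ≤ 1 / 2 := abs_sub_round _
  have hMi : (0 : ℤ) < M := by exact_mod_cast (by omega : 0 < M)
  have h2 : 0 ≤ n % M := Int.emod_nonneg _ hMi.ne'
  have h3 : n % M < M := Int.emod_lt_of_pos _ hMi
  refine ⟨⟨(n % M).toNat, by omega⟩, ?_⟩
  have h4 : (((n % M).toNat : ℕ) : ℝ) = ((n % M : ℤ) : ℝ) := by
    have : (((n % M).toNat : ℕ) : ℤ) = n % M := Int.toNat_of_nonneg h2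
    exact_mod_cast congrArg (fun z : ℤ => (z : ℝ)) this
  have h5 : (n : ℝ) = ((n % M : ℤ) : ℝ) + M * ((n / M : ℤ) : ℝ) := by
    have := Int.emod_add_mul_ediv n M
    exact_mod_cast this.symm
  have h6 : φ - 2 * π * ((n % M).toNat : ℕ) / M =
      (φ - 2 * π * n / M) + ((n / M : ℤ) : ℝ) * (2 * π) := by
    rw [h4, h5]
    field_simp
    ring
  simp only
  rw [h6, Real.cos_add_int_mul_two_pi, ← Real.cos_abs (φ - 2 * π * n / M)]
  apply Real.cos_le_cos_of_nonneg_of_le_pi (abs_nonneg _)
  · rw [div_le_iff₀ (by linarith)]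
    nlinarith
  · have h7 : φ - 2 * π * n / M = (φ * M / (2 * π) - n) * (2 * π / M) := by
      field_simp
    rw [h7, abs_mul, abs_of_pos (by positivity : (0:ℝ) < 2 * π / M)]
    calc |φ * M / (2 * π) - n| * (2 * π / M) ≤ 1 / 2 * (2 * π / M) := by
          apply mul_le_mul_of_nonneg_right h1 (by positivity)
      _ = π / M := by ring

lemma polar (p q : ℝ) : ∃ a ψ : ℝ, 0 ≤ a ∧ p = a * cos ψ ∧ q = a * sin ψ := by
  refine ⟨‖(⟨p, q⟩ : ℂ)‖, Complex.arg ⟨p, q⟩, norm_nonneg _, ?_, ?_⟩
  · exact (Complex.norm_mul_cos_arg (⟨p, q⟩ : ℂ)).symm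
  · exact (Complex.norm_mul_sin_arg (⟨p, q⟩ : ℂ)).symm

/-- The constants of the construction. -/
structure Data (M : ℕ) where
  s : ℝ
  h : ℝ
  η : ℝ
  R : ℝ
  η_pos : 0 < η
  R_pos : 0 < R
  R_half : R ≤ 1 / 2
  R_eta : R ≤ η
  c1 : (1 + η) ^ 2 ≤ s * cos (π / M)
  c2 : s * cos (2 * π / M) + 2 * R ≤ 1
  c3 : 0 ≤ s * cos (2 * π / M)
  s_big : (1 + η) ^ 2 ≤ s
  s_big' : (1 + η) ^ 2 < s
  h1 : s ≤ η * h
  h2 : (1 + η) ≤ η * (h - (1 + η))
  h3 : 3 ≤ h

lemma exists_data {M : ℕ} (hM : 5 ≤ M) : Nonempty (Data M) := by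
  have hM' : (5 : ℝ) ≤ M := by exact_mod_cast hM
  have hpi := Real.pi_pos
  set a := cos (π / M) with ha
  set b := cos (2 * π / M) with hb
  have hb0 : 0 < b := by
    apply Real.cos_pos_of_mem_Ioo
    constructor
    · have : 0 < 2 * π / M := by positivity
      linarith
    · rw [div_lt_div_iff₀ (by linarith) (by norm_num)]
      nlinarith
  have hab : b < a := by
    apply Real.cos_lt_cos_of_nonneg_of_le_pi (by positivity)
    · rw [div_le_iff₀ (by linarith)]; nlinarith
    · rw [div_lt_div_iff_of_pos_right (by linarith)]; linarith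
  have ha1 : a < 1 := by
    rw [← Real.cos_zero]
    apply Real.cos_lt_cos_of_nonneg_of_le_pi le_rfl
    · rw [div_le_iff₀ (by linarith)]; nlinarith
    · positivity
  set s := 2 / (a + b) with hs
  have hsp : 0 < s := div_pos two_pos (by linarith)
  have hsa : 1 < s * a := by
    rw [hs, div_mul_eq_mul_div, lt_div_iff₀ (by linarith)]; linarith
  have hsb : s * b < 1 := by
    rw [hs, div_mul_eq_mul_div, div_lt_iff₀ (by linarith)]; linarith
  have hsb0 : 0 < s * b := by positivity
  set η := Real.sqrt (s * a) - 1 with hη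
  have hη0 : 0 < η := by
    have : 1 < Real.sqrt (s * a) := by
      rw [Real.lt_sqrt (by norm_num)]; linarith
    linarith
  have hηsq : (1 + η) ^ 2 = s * a := by
    rw [hη]
    have : (1 + (Real.sqrt (s * a) - 1)) = Real.sqrt (s * a) := by ring
    rw [this, Real.sq_sqrt (by linarith)]
  have hsa' : s * a < s := by nlinarith
  set h := s / η + (1 + η) / η + (1 + η) + 3 with hh
  have hh1 : η * h = s + (1 + η) + η * (1 + η) + 3 * η := by
    rw [hh]; field_simp
  exact ⟨{
    s := s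
    h := h
    η := η
    R := min ((1 - s * b) / 2) (min η (1 / 2))
    η_pos := hη0
    R_pos := lt_min (by linarith) (lt_min hη0 (by norm_num))
    R_half := (min_le_right _ _).trans (min_le_right _ _)
    R_eta := (min_le_right _ _).trans (min_le_left _ _)
    c1 := hηsq.le
    c2 := by
      have : min ((1 - s * b) / 2) (min η (1 / 2)) ≤ (1 - s * b) / 2 := min_le_left _ _
      linarith
    c3 := hsb0.le
    s_big := by linarith
    s_big' := by linarith
    h1 := by rw [hh1]; nlinarith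
    h2 := by
      have : η * (h - (1 + η)) = η * h - η * (1 + η) := by ring
      rw [this, hh1]
      linarith
    h3 := by
      rw [hh]
      have : 0 < s / η := by positivity
      have : 0 < (1 + η) / η := by positivity
      linarith
  }⟩

/-! ### the configuration -/

/-- angle number `j` -/
noncomputable def th {M : ℕ} (j : Fin M) : ℝ := 2 * π * (j : ℕ) / M

/-- centres of the balls -/
noncomputable def cen {M : ℕ} (D : Data M) : Option (Option (Fin M)) → E
  | none => 0
  | some none => !₂[0, 0, -D.h]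
  | some (some j) => !₂[2 * D.s * cos (th j), 2 * D.s * sin (th j), D.h]

/-- bounds for the radii -/
noncomputable def rad {M : ℕ} (D : Data M) : Option (Option (Fin M)) → ℝ
  | none => 1
  | some _ => D.R

section
variable {M : ℕ} (D : Data M)

lemma inner_none (e : E) : ⟪e, cen D none⟫ = 0 := inner_zero_right _

lemma inner_l (e : E) : ⟪e, cen D (some none)⟫ = - (D.h * e 2) := by
  rw [inner3]; simp [cen]; ring

lemma inner_u (e : E) (j : Fin M) : ⟪e, cen D (some (some j))⟫ =
    2 * D.s * (e 0 * cos (th j) + e 1 * sin (th j)) + D.h * e 2 := by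
  rw [inner3]; simp [cen]; ring

/-- direction number `j`, tilted -/
noncomputable def dir {M : ℕ} (j : Fin M) (w : ℝ) : E := !₂[cos (th j), sin (th j), -w]

lemma inner_dir_l (j : Fin M) (w : ℝ) : ⟪dir j w, cen D (some none)⟫ = D.h * w := by
  rw [inner_l]; simp [dir]

lemma inner_dir_u (i j : Fin M) (w : ℝ) : ⟪dir i w, cen D (some (some j))⟫ =
    2 * D.s * cos (th i - th j) - D.h * w := by
  rw [inner_u, Real.cos_sub]; simp [dir]; ring

lemma norm_dir_sq (j : Fin M) (w : ℝ) : ‖dir j w‖ ^ 2 = 1 + w ^ 2 := by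
  rw [nsq]; simp [dir]

lemma norm_dir_zero (j : Fin M) : ‖dir j 0‖ = 1 := by
  have := norm_dir_sq j 0
  have h : ‖dir j 0‖ ^ 2 = 1 ^ 2 := by rw [this]; ring
  exact (pow_left_inj₀ (norm_nonneg _) (by norm_num) (by norm_num)).mp h

lemma one_le_norm_dir (j : Fin M) (w : ℝ) : 1 ≤ ‖dir j w‖ := by
  have := norm_dir_sq j w
  have hn := norm_nonneg (dir j w)
  nlinarith [sq_nonneg w]

lemma norm_dir_le (j : Fin M) {w : ℝ} (hw : 0 ≤ w) : ‖dir j w‖ ≤ 1 + w := by
  have h := norm_dir_sq j w
  apply le_of_sq_le_sq _ (by linarith)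
  rw [h]
  nlinarith

lemma dir_ne (j : Fin M) (w : ℝ) : dir j w ≠ 0 := by
  intro h
  have := one_le_norm_dir j w
  rw [h, norm_zero] at this
  linarith

/-- downward direction -/
noncomputable def dn : E := !₂[0, 0, -1]

lemma norm_dn : ‖dn‖ = 1 := by
  have h : ‖dn‖ ^ 2 = 1 ^ 2 := by rw [nsq]; simp [dn]
  exact (pow_left_inj₀ (norm_nonneg _) (by norm_num) (by norm_num)).mp h

lemma dn_ne : dn ≠ 0 := by
  intro h
  have := norm_dn
  rw [h, norm_zero] at this
  linarith

lemma inner_dn_l : ⟪dn, cen D (some none)⟫ = D.h := by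
  rw [inner_l]; simp [dn]

lemma inner_dn_u (j : Fin M) : ⟪dn, cen D (some (some j))⟫ = -D.h := by
  rw [inner_u]; simp [dn]

lemma cos_th (hM : 5 ≤ M) {i j : Fin M} (hij : j ≠ i) :
    D.s * cos (th i - th j) ≤ D.s * cos (2 * π / M) := by
  have hs : 0 ≤ D.s := by have := D.s_big; nlinarith [sq_nonneg (1 + D.η)]
  exact mul_le_mul_of_nonneg_left (cos_diff hM i j (Ne.symm hij)) hs

/-- any member is strictly separated from any two others, with room for the radii -/
lemma sep (hM : 5 ≤ M) (i j k : Option (Option (Fin M))) (hj : j ≠ i) (hk : k ≠ i)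
    (hjk : j ≠ k) : ∃ e : E, e ≠ 0 ∧
      ⟪e, cen D j⟫ + rad D j * ‖e‖ < ⟪e, cen D i⟫ - rad D i * ‖e‖ ∧
      ⟪e, cen D k⟫ + rad D k * ‖e‖ < ⟪e, cen D i⟫ - rad D i * ‖e‖ := by
  have hη := D.η_pos
  have hR := D.R_pos
  have hR2 := D.R_half
  have hR3 := D.R_eta
  have hc2 := D.c2
  have hc3 := D.c3
  have hs := D.s_big'
  have hs1 : 1 < D.s := by nlinarith
  have hh1 := D.h1
  have hh3 := D.h3
  match i with
  | some (some a) =>
    have key : ∀ m : Option (Option (Fin M)), m ≠ some (some a) →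
        ⟪dir a 0, cen D m⟫ + rad D m * ‖dir a 0‖ <
          ⟪dir a 0, cen D (some (some a))⟫ - rad D (some (some a)) * ‖dir a 0‖ := by
      intro m hm
      rw [norm_dir_zero, inner_dir_u, sub_self, Real.cos_zero]
      match m with
      | none => rw [inner_none]; simp only [rad]; linarith
      | some none => rw [inner_dir_l]; simp only [rad]; linarith
      | some (some b) =>
        have hb : b ≠ a := fun h => hm (by rw [h])
        rw [inner_dir_u]
        have := cos_th D hM hb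
        simp only [rad]
        linarith
    exact ⟨dir a 0, dir_ne a 0, key j hj, key k hk⟩
  | some none =>
    have key : ∀ m : Option (Option (Fin M)), m ≠ some none →
        ⟪dn, cen D m⟫ + rad D m * ‖dn‖ <
          ⟪dn, cen D (some none)⟫ - rad D (some none) * ‖dn‖ := by
      intro m hm
      rw [norm_dn, inner_dn_l]
      match m with
      | none => rw [inner_none]; simp only [rad]; linarith
      | some none => exact absurd rfl hm
      | some (some b) => rw [inner_dn_u]; simp only [rad]; linarith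
    exact ⟨dn, dn_ne, key j hj, key k hk⟩
  | none =>
    -- two upper balls
    have up : ∀ b : Fin M, ⟪dn, cen D (some (some b))⟫ + rad D (some (some b)) * ‖dn‖ <
        ⟪dn, cen D none⟫ - rad D none * ‖dn‖ := by
      intro b
      rw [norm_dn, inner_dn_u, inner_none]
      simp only [rad]
      linarith
    have hpos : 0 < D.h := by linarith
    have tilt : ∀ a : Fin M, ∃ e : E, e ≠ 0 ∧
        ⟪e, cen D (some (some a))⟫ + rad D (some (some a)) * ‖e‖ <
          ⟪e, cen D none⟫ - rad D none * ‖e‖ ∧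
        ⟪e, cen D (some none)⟫ + rad D (some none) * ‖e‖ <
          ⟪e, cen D none⟫ - rad D none * ‖e‖ := by
      intro a
      set w := D.s / D.h with hw
      have hw0 : 0 ≤ w := by positivity
      have hhw : D.h * w = D.s := by rw [hw]; field_simp
      have hwη : w ≤ D.η := by rw [hw, div_le_iff₀ hpos]; exact hh1
      have hn := norm_dir_le a hw0
      have hn1 := one_le_norm_dir a w
      have hkey : (1 + D.R) * ‖dir a w‖ < D.s := by
        calc (1 + D.R) * ‖dir a w‖ ≤ (1 + D.η) * (1 + D.η) := by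
              apply mul_le_mul (by linarith) (by linarith) (by linarith) (by linarith)
          _ < D.s := by nlinarith
      refine ⟨-dir a w, neg_ne_zero.mpr (dir_ne a w), ?_, ?_⟩
      · rw [inner_neg_left, inner_neg_left, norm_neg, inner_dir_u, inner_none, sub_self,
          Real.cos_zero, hhw]
        simp only [rad]
        linarith
      · rw [inner_neg_left, inner_neg_left, norm_neg, inner_dir_l, inner_none, hhw]
        simp only [rad]
        linarith
    match j, k with
    | none, _ => exact absurd rfl hj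
    | _, none => exact absurd rfl hk
    | some none, some none => exact absurd rfl hjk
    | some (some a), some (some b) => exact ⟨dn, dn_ne, up a, up b⟩
    | some (some a), some none => exact tilt a
    | some none, some (some a) =>
      obtain ⟨e, h0, h1, h2⟩ := tilt a
      exact ⟨e, h0, h2, h1⟩

/-- when one of the other members is missing, each member sticks out -/
lemma expo (hM : 5 ≤ M) (r : Option (Option (Fin M)) → ℝ) (hr0 : r none = 1)
    (hr : ∀ i, i ≠ none → 0 < r i ∧ r i < D.R) (i j0 : Option (Option (Fin M)))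
    (hj0 : j0 ≠ i) : ∃ e : E, e ≠ 0 ∧ ∀ j, j ≠ i → j ≠ j0 →
      ⟪e, cen D j⟫ + r j * ‖e‖ < ⟪e, cen D i⟫ + r i * ‖e‖ := by
  have hη := D.η_pos
  have hR := D.R_pos
  have hR2 := D.R_half
  have hR3 := D.R_eta
  have hc2 := D.c2
  have hc3 := D.c3
  have hs := D.s_big'
  have hs1 : 1 < D.s := by nlinarith
  have hh1 := D.h1
  have hh3 := D.h3
  have hl := hr (some none) (by simp)
  have hu : ∀ a : Fin M, 0 < r (some (some a)) ∧ r (some (some a)) < D.R :=
    fun a => hr _ (by simp)
  match i with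
  | some (some a) =>
    refine ⟨dir a 0, dir_ne a 0, fun m hm _ => ?_⟩
    rw [norm_dir_zero, inner_dir_u, sub_self, Real.cos_zero]
    have ha := hu a
    match m with
    | none => rw [inner_none, hr0]; linarith
    | some none => rw [inner_dir_l]; linarith
    | some (some b) =>
      have hb : b ≠ a := fun h => hm (by rw [h])
      rw [inner_dir_u]
      have := cos_th D hM hb
      have := hu b
      linarith
  | some none =>
    refine ⟨dn, dn_ne, fun m hm _ => ?_⟩
    rw [norm_dn, inner_dn_l]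
    match m with
    | none => rw [inner_none, hr0]; linarith
    | some none => exact absurd rfl hm
    | some (some b) => rw [inner_dn_u]; have := hu b; linarith
  | none =>
    match j0 with
    | none => exact absurd rfl hj0
    | some none =>
      refine ⟨dn, dn_ne, fun m hm hm' => ?_⟩
      rw [norm_dn, inner_none, hr0]
      match m with
      | none => exact absurd rfl hm
      | some none => exact absurd rfl hm'
      | some (some b) => rw [inner_dn_u]; have := hu b; linarith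
    | some (some a) =>
      have hpos : 0 < D.h := by linarith
      set c' := D.s * cos (2 * π / M) with hc'
      set w := c' / D.h with hw
      have hw0 : 0 ≤ w := by positivity
      have hhw : D.h * w = c' := by rw [hw]; field_simp
      have hn1 := one_le_norm_dir a w
      refine ⟨dir a w, dir_ne a w, fun m hm hm' => ?_⟩
      rw [inner_none, hr0]
      match m with
      | none => exact absurd rfl hm
      | some none =>
        rw [inner_dir_l, hhw]
        nlinarith
      | some (some b) =>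
        have hb : b ≠ a := fun h => hm' (by rw [h])
        rw [inner_dir_u, hhw]
        have h1 := cos_th D hM hb
        have h2 := hu b
        nlinarith

/-- in every direction some outer centre is far out -/
lemma far_out (hM : 5 ≤ M) (v : E) : ∃ i, i ≠ none ∧ (1 + D.η) * ‖v‖ ≤ ⟪v, cen D i⟫ := by
  obtain ⟨a, φ, ha, h0, h1⟩ := polar (v 0) (v 1)
  obtain ⟨j, hj⟩ := cos_near hM φ
  have hη := D.η_pos
  have hc1 := D.c1
  have hh1 := D.h1
  have hh2 := D.h2
  have hh3 := D.h3
  have hs : 0 ≤ D.s := by have := D.s_big; nlinarith [sq_nonneg (1 + D.η)]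
  have hu : ⟪v, cen D (some (some j))⟫ = 2 * D.s * (a * cos (φ - th j)) + D.h * v 2 := by
    rw [inner_u, h0, h1, Real.cos_sub]; ring
  have hcj : (1 + D.η) ^ 2 * a ≤ D.s * (a * cos (φ - th j)) := by
    calc (1 + D.η) ^ 2 * a ≤ (D.s * cos (π / M)) * a := mul_le_mul_of_nonneg_right hc1 ha
      _ = D.s * (a * cos (π / M)) := by ring
      _ ≤ D.s * (a * cos (φ - th j)) := by
        apply mul_le_mul_of_nonneg_left _ hs
        exact mul_le_mul_of_nonneg_left hj ha
  have hl := inner_l D v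
  have hnv : ‖v‖ ^ 2 = a ^ 2 + v 2 ^ 2 := by
    rw [nsq, h0, h1]
    have := Real.sin_sq_add_cos_sq φ
    linear_combination a ^ 2 * this
  have hnorm : ‖v‖ ≤ a + |v 2| := by
    apply le_of_sq_le_sq _ (by positivity)
    rw [hnv]
    nlinarith [sq_abs (v 2), abs_nonneg (v 2)]
  have hv0 := norm_nonneg v
  rcases le_total 0 (v 2) with hw | hw
  · refine ⟨some (some j), by simp, ?_⟩
    rw [abs_of_nonneg hw] at hnorm
    rw [hu]
    have e1 : (1 + D.η) * ‖v‖ ≤ (1 + D.η) * (a + v 2) :=
      mul_le_mul_of_nonneg_left hnorm (by linarith)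
    have e2 : (1 + D.η) * a ≤ (1 + D.η) ^ 2 * a :=
      mul_le_mul_of_nonneg_right (by nlinarith) ha
    have e3 : (1 + D.η) * v 2 ≤ D.h * v 2 := by
      apply mul_le_mul_of_nonneg_right _ hw
      by_contra hcon
      push Not at hcon
      nlinarith
    have e4 : 0 ≤ (1 + D.η) ^ 2 * a := by positivity
    nlinarith
  · rw [abs_of_nonpos hw] at hnorm
    by_cases hlow : (1 + D.η) * ‖v‖ ≤ ⟪v, cen D (some none)⟫
    · exact ⟨some none, by simp, hlow⟩
    · push Not at hlow
      refine ⟨some (some j), by simp, ?_⟩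
      rw [hl] at hlow
      rw [hu]
      -- `-v 2` is small
      have e0 : (1 + D.η) * ‖v‖ ≤ (1 + D.η) * (a - v 2) :=
        mul_le_mul_of_nonneg_left (by linarith) (by linarith)
      have e1 : (D.h - (1 + D.η)) * (-v 2) < (1 + D.η) * a := by nlinarith
      have e2 : (1 + D.η) * (-v 2) ≤ D.η * (D.h - (1 + D.η)) * (-v 2) :=
        mul_le_mul_of_nonneg_right hh2 (by linarith)
      have e3 : D.η * (D.h - (1 + D.η)) * (-v 2) ≤ D.η * ((1 + D.η) * a) := by
        rw [mul_assoc]
        exact mul_le_mul_of_nonneg_left e1.le hη.le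
      have e5 : (1 + D.η) * (-v 2) ≤ (1 + D.η) * (D.η * a) := by linarith
      have e6 : -v 2 ≤ D.η * a := le_of_mul_le_mul_left e5 (by linarith)
      have e7 : (1 + D.η) * ‖v‖ ≤ (1 + D.η) ^ 2 * a := by
        calc (1 + D.η) * ‖v‖ ≤ (1 + D.η) * (a - v 2) := e0
          _ ≤ (1 + D.η) * ((1 + D.η) * a) := by
            apply mul_le_mul_of_nonneg_left _ (by linarith)
            linarith
          _ = (1 + D.η) ^ 2 * a := by ring
      linarith

end

/-! ### the main result -/

/-- the unit ball is hidden inside the hull of the outer centres -/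
lemma hidden {M : ℕ} (D : Data M) (hM : 5 ≤ M) :
    Metric.closedBall (0 : E) 1 ⊆ interior (convexHull ℝ (cen D '' {i | i ≠ none})) := by
  have hη := D.η_pos
  have hsub : Metric.closedBall (0 : E) (1 + D.η) ⊆ convexHull ℝ (cen D '' {i | i ≠ none}) := by
    intro x hx
    by_contra hcon
    have hfin : (cen D '' {i | i ≠ none}).Finite := (Set.toFinite _).image _
    obtain ⟨f, u, hf1, hf2⟩ := geometric_hahn_banach_closed_point (convex_convexHull ℝ _)
      (hfin.isClosed_convexHull ℝ) hcon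
    set v : E := (InnerProductSpace.toDual ℝ E).symm f with hv
    have hfv : ∀ y, f y = ⟪v, y⟫ := fun y => by
      rw [hv, InnerProductSpace.toDual_symm_apply]
    obtain ⟨i, hi, hi'⟩ := far_out D hM v
    have h1 := hf1 (cen D i) (subset_convexHull ℝ _ ⟨i, hi, rfl⟩)
    rw [hfv] at h1 hf2
    have h2 : ⟪v, x⟫ ≤ ‖v‖ * ‖x‖ := real_inner_le_norm _ _
    rw [mem_closedBall_zero_iff] at hx
    have h3 : ‖v‖ * ‖x‖ ≤ ‖v‖ * (1 + D.η) := mul_le_mul_of_nonneg_left hx (norm_nonneg _)
    linarith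
  have h1 : Metric.closedBall (0 : E) 1 ⊆ Metric.ball (0 : E) (1 + D.η) :=
    Metric.closedBall_subset_ball (by linarith)
  have h2 : Metric.ball (0 : E) (1 + D.η) ⊆ interior (convexHull ℝ (cen D '' {i | i ≠ none})) :=
    interior_maximal (Metric.ball_subset_closedBall.trans hsub) Metric.isOpen_ball
  exact h1.trans h2

/-- **Main result.** For every `k` there is an `N` such that for all `n ≥ N` there is a
separable nondegenerate family of `n` convex bodies in 3-space, every `k` of which are in convex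
position although the `n` members are not. -/
theorem result (k : ℕ) : ∃ N : ℕ, ∀ n ≥ N, ∃ F : Finset (Set E), F.card = n ∧
    (∀ K ∈ F, IsConvexBody K) ∧ Separable F ∧ Nondegenerate F ∧
    (∀ G ⊆ F, G.card = k → ConvexPosition G) ∧ ¬ ConvexPosition F := by
  classical
  refine ⟨max (k + 1) 7, fun n hn => ?_⟩
  have hn1 : k + 1 ≤ n := (le_max_left _ _).trans hn
  have hn7 : 7 ≤ n := (le_max_right _ _).trans hn
  obtain ⟨M, rfl⟩ : ∃ M, n = M + 2 := ⟨n - 2, by omega⟩
  have hM : 5 ≤ M := by omega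
  obtain ⟨D⟩ := exists_data hM
  have hexp : ∀ i j k : Option (Option (Fin M)), j ≠ i → k ≠ i → j ≠ k → ∃ e : E,
      ⟪e, cen D j⟫ < ⟪e, cen D i⟫ ∧ ⟪e, cen D k⟫ < ⟪e, cen D i⟫ := by
    intro i j k h1 h2 h3
    obtain ⟨e, _, h4, h5⟩ := sep D hM i j k h1 h2 h3
    have hn := norm_nonneg e
    have hrad : ∀ i, 0 ≤ rad D i := fun i => by
      match i with
      | none => simp [rad]
      | some _ => exact D.R_pos.le
    have a1 := mul_nonneg (hrad i) hn
    have a2 := mul_nonneg (hrad j) hn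
    have a3 := mul_nonneg (hrad k) hn
    exact ⟨e, by linarith, by linarith⟩
  obtain ⟨r, hr0, hr1, hr2⟩ := exists_radii (cen D) (fun a b d hab had hbd =>
    not_collinear (hexp a b d hab.symm had.symm hbd) (hexp b a d hab hbd.symm had)
      (hexp d a b had hbd hab)) none D.R_pos
  have hrpos : ∀ i, 0 < r i := by
    intro i
    by_cases hi : i = none
    · rw [hi, hr0]; norm_num
    · exact (hr1 i hi).1
  have hrle : ∀ i, r i ≤ rad D i := by
    intro i
    match i with
    | none => rw [hr0]; simp [rad]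
    | some j => exact (hr1 (some j) (by simp)).2.le
  set B : Option (Option (Fin M)) → Set E := fun i => Metric.closedBall (cen D i) (r i) with hB
  have hcard : Fintype.card (Option (Option (Fin M))) = M + 2 := by simp
  -- separation of balls
  have hsep : ∀ i j k, j ≠ i → k ≠ i → j ≠ k → ∃ (v : E) (t : ℝ), v ≠ 0 ∧
      (∀ x ∈ B j ∪ B k, ⟪v, x⟫ < t) ∧ (∀ x ∈ B i, t < ⟪v, x⟫) := by
    intro i j k h1 h2 h3
    obtain ⟨e, he, h4, h5⟩ := sep D hM i j k h1 h2 h3
    have hn := norm_nonneg e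
    set t1 := max (⟪e, cen D j⟫ + rad D j * ‖e‖) (⟪e, cen D k⟫ + rad D k * ‖e‖) with ht1
    set t2 := ⟪e, cen D i⟫ - rad D i * ‖e‖ with ht2
    have ht : t1 < t2 := max_lt h4 h5
    refine ⟨e, (t1 + t2) / 2, he, ?_, ?_⟩
    · rintro x (hx | hx)
      · have g1 := le_support (v := e) hx
        have g2 := mul_le_mul_of_nonneg_right (hrle j) hn
        have g3 : ⟪e, cen D j⟫ + rad D j * ‖e‖ ≤ t1 := le_max_left _ _
        linarith
      · have g1 := le_support (v := e) hx
        have g2 := mul_le_mul_of_nonneg_right (hrle k) hn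
        have g3 : ⟪e, cen D k⟫ + rad D k * ‖e‖ ≤ t1 := le_max_right _ _
        linarith
    · intro x hx
      have g1 := ge_support (v := e) hx
      have g2 := mul_le_mul_of_nonneg_right (hrle i) hn
      linarith
  have hinj : Function.Injective B := by
    intro i j hij
    by_contra hne
    obtain ⟨k, hki, hkj⟩ : ∃ k, k ≠ i ∧ k ≠ j := by
      have : ∃ k, k ∉ ({i, j} : Finset (Option (Option (Fin M)))) := by
        by_contra hcon
        push Not at hcon
        have h1 : (Finset.univ : Finset (Option (Option (Fin M)))) ⊆ {i, j} :=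
          fun x _ => hcon x
        have h2 := Finset.card_le_card h1
        rw [Finset.card_univ, hcard] at h2
        have h3 := Finset.card_le_two (a := i) (b := j)
        omega
      obtain ⟨k, hk⟩ := this
      simp only [Finset.mem_insert, Finset.mem_singleton, not_or] at hk
      exact ⟨k, hk.1, hk.2⟩
    obtain ⟨v, t, _, h1, h2⟩ := hsep i j k (Ne.symm hne) hki hkj.symm
    have hmem : cen D i ∈ B i := Metric.mem_closedBall_self (hrpos i).le
    have h3 := h2 _ hmem
    have h4 := h1 (cen D i) (Or.inl (hij ▸ hmem))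
    linarith
  set F : Finset (Set E) := Finset.univ.map ⟨B, hinj⟩ with hF
  have hmemF : ∀ K, K ∈ F ↔ ∃ i, B i = K := by
    intro K
    rw [hF, Finset.mem_map]
    simp
  -- index set of a subfamily
  have hidx : ∀ G ⊆ F, ∃ s : Finset (Option (Option (Fin M))), s.card = G.card ∧
      (∀ i, i ∈ s ↔ B i ∈ G) := by
    intro G hG
    refine ⟨Finset.univ.filter (fun i => B i ∈ G), ?_, fun i => by simp⟩
    have h1 : (Finset.univ.filter (fun i => B i ∈ G)).map ⟨B, hinj⟩ = G := by
      ext K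
      rw [Finset.mem_map]
      constructor
      · rintro ⟨i, hi, rfl⟩
        exact (Finset.mem_filter.mp hi).2
      · intro hK
        obtain ⟨i, rfl⟩ := (hmemF K).mp (hG hK)
        exact ⟨i, Finset.mem_filter.mpr ⟨Finset.mem_univ _, hK⟩, rfl⟩
    rw [← Finset.card_map ⟨B, hinj⟩, h1]
  refine ⟨F, ?_, ?_, ?_, ?_, ?_, ?_⟩
  · rw [hF, Finset.card_map, Finset.card_univ, hcard]
  · intro K hK
    obtain ⟨i, rfl⟩ := (hmemF K).mp hK
    refine ⟨isCompact_closedBall _ _, convex_closedBall _ _, ?_⟩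
    exact ⟨cen D i, interior_mono Metric.ball_subset_closedBall
      (by rw [Metric.isOpen_ball.interior_eq]; exact Metric.mem_ball_self (hrpos i))⟩
  · intro A hA A' hA' C hC h1 h2 h3
    obtain ⟨i, rfl⟩ := (hmemF A).mp hA
    obtain ⟨j, rfl⟩ := (hmemF A').mp hA'
    obtain ⟨k, rfl⟩ := (hmemF C).mp hC
    exact hsep k i j (fun h => h2 (by rw [h])) (fun h => h3 (by rw [h]))
      (fun h => h1 (by rw [h]))
  · rintro G hG hG4 ⟨v, t, hv, hsup⟩
    obtain ⟨s, hs, hs'⟩ := hidx G hG
    have hn : 0 < ‖v‖ := norm_pos_iff.mpr hv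
    have h3 := hr2 s ((‖v‖⁻¹) • v) (‖v‖⁻¹ * t)
      (by rw [norm_smul, norm_inv, norm_norm, inv_mul_cancel₀ hn.ne'])
      (fun i hi => by
        have h4 := supports_ball (hrpos i).le hv (hsup _ ((hs' i).mp hi))
        rw [inner_smul_left]
        simp only [conj_trivial]
        rw [← mul_sub, abs_mul, abs_of_pos (inv_pos.mpr hn), h4]
        field_simp)
    omega
  · intro G hG hGk C hC
    obtain ⟨s, hs, hs'⟩ := hidx G hG
    obtain ⟨i, rfl⟩ := (hmemF C).mp (hG hC)
    obtain ⟨j0, hj0⟩ : ∃ j0, j0 ∉ s := by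
      by_contra hcon
      push Not at hcon
      have h1 : (Finset.univ : Finset (Option (Option (Fin M)))) ⊆ s := fun x _ => hcon x
      have h2 := Finset.card_le_card h1
      rw [Finset.card_univ, hcard] at h2
      omega
    have hi : i ∈ s := (hs' i).mpr hC
    obtain ⟨e, he, he'⟩ := expo D hM r hr0 (fun i hi => hr1 i hi) i j0
      (fun h => hj0 (by rw [h]; exact hi))
    refine exposed s (cen D) r hrpos ⟨e, he, fun j hj hji => he' j hji
      (fun h => hj0 (by rw [← h]; exact hj))⟩ _ ?_ ?_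
    · intro x hx
      simp only [Set.mem_iUnion] at hx
      obtain ⟨K, hK, hxK⟩ := hx
      obtain ⟨j, rfl⟩ := (hmemF K).mp (hG hK)
      exact ⟨j, (hs' j).mpr hK, hxK⟩
    · intro x hx
      simp only [Set.mem_iUnion]
      exact ⟨B i, hC, hx⟩
  · intro hcp
    obtain ⟨U, _, ⟨x, hxU, hx⟩, hsub⟩ := hcp (B none) ((hmemF _).mpr ⟨none, rfl⟩)
    have h1 := hsub ⟨hxU, hx⟩
    have hx1 : x ∈ Metric.closedBall (0 : E) 1 := by
      have h2 : x ∈ B none := by
        have := frontier_subset_closure hx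
        rwa [Metric.isClosed_closedBall.closure_eq] at this
      have h3 : B none = Metric.closedBall (0 : E) 1 := by
        show Metric.closedBall (cen D none) (r none) = _
        rw [hr0]; rfl
      rwa [h3] at h2
    have h4 := hidden D hM hx1
    have h5 : convexHull ℝ (cen D '' {i | i ≠ none}) ⊆ convexHull ℝ (⋃ K ∈ F, K) := by
      apply convexHull_mono
      rintro y ⟨i, _, rfl⟩
      simp only [Set.mem_iUnion]
      exact ⟨B i, (hmemF _).mpr ⟨i, rfl⟩, Metric.mem_closedBall_self (hrpos i).le⟩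
    exact h1.2 (interior_mono h5 h4)

end Pool.Agent.Results.MP_41a254_co.HiddenBall
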